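import Mathlib

/-!
MP_d2c770_co: the domatic game numbers for the two choices of the first player differ by at most
one.
-/

set_option autoImplicit false

namespace Pool.Agent.Results.MP_d2c770_co.FirstPlayerChange

/-- `S` is a dominating set of `G`: every vertex lies in `S` or has a neighbour in `S`. -/
def IsDominating {V : Type*} (G : SimpleGraph V) (S : Set V) : Prop :=
  ∀ v, v ∈ S ∨ ∃ u ∈ S, G.Adj v u

/-- The two players. -/
inductive Player
  | alice
  | bob

open Classical in
/-- The domatic game on `G` with palette `Fin k`. A position is a partial colouring
`f : V → Option (Fin k)` (`none`: uncoloured) together with the player to move.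
`AliceWins G k X f`: Alice can force a win from the position `f` with `X` to move.
* `fin`: every vertex is coloured and every colour class is dominating;
* `alice`: Alice is to move and has a move (an uncoloured vertex and a colour) to a position
  from which she can force a win;
* `bob`: Bob is to move, some vertex is uncoloured, and all his moves lead to positions from which
  Alice can force a win. -/
inductive AliceWins {V : Type*} (G : SimpleGraph V) (k : ℕ) :
    Player → (V → Option (Fin k)) → Prop
  | fin (X : Player) (f : V → Option (Fin k)) (hfull : ∀ v, f v ≠ none)
      (hdom : ∀ c : Fin k, IsDominating G {v | f v = some c}) : AliceWins G k X f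
  | alice (f : V → Option (Fin k)) (v : V) (hv : f v = none) (c : Fin k)
      (h : AliceWins G k Player.bob (Function.update f v (some c))) :
      AliceWins G k Player.alice f
  | bob (f : V → Option (Fin k)) (hne : ∃ v, f v = none)
      (h : ∀ v, f v = none → ∀ c : Fin k,
        AliceWins G k Player.alice (Function.update f v (some c))) :
      AliceWins G k Player.bob f

/-- The domatic game number `γ_g(G, X)`: the largest `k ≥ 1` for which Alice wins the domatic game
on `G` with `k` colours when `X` moves first. -/
noncomputable def gameNumber {V : Type*} (G : SimpleGraph V) (X : Player) : ℕ :=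
  sSup {k | 1 ≤ k ∧ AliceWins G k X (fun _ => none)}

section
variable {V : Type*} {G : SimpleGraph V}

theorem IsDominating.mono {S T : Set V} (h : S ⊆ T) (hS : IsDominating G S) :
    IsDominating G T := by
  intro v
  rcases hS v with h1 | ⟨u, hu, ha⟩
  · exact Or.inl (h h1)
  · exact Or.inr ⟨u, h hu, ha⟩

/-- The real position `f` (palette `Fin k`) and the imagined position `g` (palette `Fin (k+1)`)
agree, except for the vertex `x`, which is uncoloured in `f` and has the extra colour in `g`, and
except for vertices which have the extra colour in `g` and are coloured somehow in `f`. -/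
structure Ghost {k : ℕ} (f : V → Option (Fin k)) (g : V → Option (Fin (k + 1))) (x : V) :
    Prop where
  fx : f x = none
  gx : g x = some (Fin.last k)
  iff : ∀ v, v ≠ x → (f v = none ↔ g v = none)
  col : ∀ v c, g v = some (Fin.castSucc c) → f v = some c

open Classical in
theorem ghost_win {k : ℕ} (hk : 1 ≤ k) {X : Player} {g : V → Option (Fin (k + 1))}
    (hg : AliceWins G (k + 1) X g) : ∀ (f : V → Option (Fin k)) (x : V), Ghost f g x →
      AliceWins G k X f := by
  induction hg with
  | fin X g hfull hdom =>
    intro f x hx
    have key : ∀ c0 : Fin k, AliceWins G k Player.alice (Function.update f x (some c0)) ∧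
        AliceWins G k Player.bob (Function.update f x (some c0)) := by
      intro c0
      have h1 : ∀ v, Function.update f x (some c0) v ≠ none := by
        intro v
        by_cases hv : v = x
        · rw [hv, Function.update_self]; simp
        · rw [Function.update_of_ne hv, ne_eq, hx.iff v hv]
          exact hfull v
      have h2 : ∀ c : Fin k, IsDominating G {v | Function.update f x (some c0) v = some c} := by
        intro c
        refine IsDominating.mono ?_ (hdom (Fin.castSucc c))
        intro v hv
        have hv' : g v = some (Fin.castSucc c) := hv
        have hvx : v ≠ x := by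
          rintro rfl
          rw [hx.gx] at hv'
          have := Option.some.inj hv'
          exact absurd this (Fin.castSucc_lt_last c).ne'
        show Function.update f x (some c0) v = some c
        rw [Function.update_of_ne hvx]
        exact hx.col v c hv'
      exact ⟨AliceWins.fin _ _ h1 h2, AliceWins.fin _ _ h1 h2⟩
    cases X with
    | alice => exact AliceWins.alice f x hx.fx ⟨0, hk⟩ (key ⟨0, hk⟩).2
    | bob =>
      refine AliceWins.bob f ⟨x, hx.fx⟩ ?_
      intro v hv c
      have hvx : v = x := by
        by_contra hne
        exact hfull v ((hx.iff v hne).1 hv)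
      rw [hvx]
      exact (key c).1
  | alice g w hw c' h ih =>
    intro f x hx
    have hwx : w ≠ x := by
      rintro rfl
      rw [hx.gx] at hw
      exact absurd hw (by simp)
    have hfw : f w = none := (hx.iff w hwx).2 hw
    have hc : ∃ c : Fin k, ∀ d, some c' = some (Fin.castSucc d) → c = d := by
      by_cases hl : c' = Fin.last k
      · refine ⟨⟨0, hk⟩, ?_⟩
        intro d hd
        have := Option.some.inj hd
        rw [hl] at this
        exact absurd this (Fin.castSucc_lt_last d).ne'
      · obtain ⟨c, hc⟩ := Fin.exists_castSucc_eq.2 hl
        refine ⟨c, fun d hd => ?_⟩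
        rw [← hc] at hd
        exact Fin.castSucc_injective k (Option.some.inj hd)
    obtain ⟨c, hc⟩ := hc
    refine AliceWins.alice f w hfw c (ih _ x ⟨?_, ?_, ?_, ?_⟩)
    · rw [Function.update_of_ne hwx.symm]; exact hx.fx
    · rw [Function.update_of_ne hwx.symm]; exact hx.gx
    · intro v hv
      by_cases hvw : v = w
      · rw [hvw, Function.update_self, Function.update_self]; simp
      · rw [Function.update_of_ne hvw, Function.update_of_ne hvw]; exact hx.iff v hv
    · intro v d hv
      by_cases hvw : v = w
      · rw [hvw, Function.update_self] at hv ⊢
        rw [hc d hv]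
      · rw [Function.update_of_ne hvw] at hv ⊢
        exact hx.col v d hv
  | bob g hne h ih =>
    intro f x hx
    refine AliceWins.bob f ⟨x, hx.fx⟩ ?_
    intro v hv c
    by_cases hvx : v = x
    · subst hvx
      obtain ⟨y, hy⟩ := hne
      have hyx : y ≠ v := by
        rintro rfl
        rw [hx.gx] at hy
        exact absurd hy (by simp)
      refine ih y hy (Fin.last k) _ y ⟨?_, ?_, ?_, ?_⟩
      · rw [Function.update_of_ne hyx]; exact (hx.iff y hyx).2 hy
      · rw [Function.update_self]
      · intro u hu
        rw [Function.update_of_ne hu]
        by_cases huv : u = v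
        · rw [huv, Function.update_self, hx.gx]; simp
        · rw [Function.update_of_ne huv]; exact hx.iff u huv
      · intro u d hu
        by_cases huy : u = y
        · rw [huy, Function.update_self] at hu
          exact absurd (Option.some.inj hu) (Fin.castSucc_lt_last d).ne'
        · rw [Function.update_of_ne huy] at hu
          by_cases huv : u = v
          · rw [huv, hx.gx] at hu
            exact absurd (Option.some.inj hu) (Fin.castSucc_lt_last d).ne'
          · rw [Function.update_of_ne huv]; exact hx.col u d hu
    · have hgv : g v = none := (hx.iff v hvx).1 hv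
      refine ih v hgv (Fin.castSucc c) _ x ⟨?_, ?_, ?_, ?_⟩
      · rw [Function.update_of_ne (Ne.symm hvx)]; exact hx.fx
      · rw [Function.update_of_ne (Ne.symm hvx)]; exact hx.gx
      · intro u hu
        by_cases huv : u = v
        · rw [huv, Function.update_self, Function.update_self]; simp
        · rw [Function.update_of_ne huv, Function.update_of_ne huv]; exact hx.iff u hu
      · intro u d hu
        by_cases huv : u = v
        · rw [huv, Function.update_self] at hu ⊢
          rw [Fin.castSucc_injective k (Option.some.inj hu)]
        · rw [Function.update_of_ne huv] at hu ⊢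
          exact hx.col u d hu

/-- The game does not change when the colours are permuted. -/
theorem perm_win {k : ℕ} (e : Equiv.Perm (Fin k)) {X : Player} {g : V → Option (Fin k)}
    (hg : AliceWins G k X g) : AliceWins G k X (fun v => (g v).map e) := by
  classical
  have hup : ∀ (g : V → Option (Fin k)) (v : V) (c : Fin k),
      (fun u => (Function.update g v (some c) u).map e) =
        Function.update (fun u => (g u).map e) v (some (e c)) := by
    intro g v c
    funext u
    by_cases hu : u = v
    · rw [hu, Function.update_self, Function.update_self]; rfl
    · rw [Function.update_of_ne hu, Function.update_of_ne hu]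
  induction hg with
  | fin X g hfull hdom =>
    refine AliceWins.fin X _ ?_ ?_
    · intro v hv
      rw [Option.map_eq_none_iff] at hv
      exact hfull v hv
    · intro c
      refine IsDominating.mono ?_ (hdom (e.symm c))
      intro v hv
      have hv' : g v = some (e.symm c) := hv
      show (g v).map e = some c
      rw [hv']
      simp
  | alice g w hw c h ih =>
    refine AliceWins.alice _ w (by rw [hw]; rfl) (e c) ?_
    have := ih
    rw [hup g w c] at this
    convert this
  | bob g hne h ih =>
    obtain ⟨y, hy⟩ := hne
    refine AliceWins.bob _ ⟨y, by rw [hy]; rfl⟩ ?_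
    intro v hv c
    rw [Option.map_eq_none_iff] at hv
    have := ih v hv (e.symm c)
    rw [hup g v (e.symm c), Equiv.apply_symm_apply] at this
    convert this

theorem full_of_wins [Fintype V] {k : ℕ} {X : Player} {f : V → Option (Fin k)} (hk : 1 ≤ k)
    (h : AliceWins G k X f) : ∃ g : V → Option (Fin k),
      ∀ c : Fin k, IsDominating G {v | g v = some c} := by
  induction h with
  | fin X g hfull hdom => exact ⟨g, hdom⟩
  | alice g w hw c h ih => exact ih
  | bob g hne h ih =>
    obtain ⟨y, hy⟩ := hne
    exact ih y hy ⟨0, hk⟩

theorem le_card [Fintype V] [Nonempty V] {k : ℕ} {X : Player} {f : V → Option (Fin k)}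
    (hk : 1 ≤ k) (h : AliceWins G k X f) : k ≤ Fintype.card V := by
  classical
  obtain ⟨g, hg⟩ := full_of_wins hk h
  have hex : ∀ c : Fin k, ∃ v, g v = some c := by
    intro c
    obtain ⟨v0⟩ := ‹Nonempty V›
    rcases hg c v0 with h1 | ⟨u, hu, _⟩
    · exact ⟨v0, h1⟩
    · exact ⟨u, hu⟩
  choose s hs using hex
  have hinj : Function.Injective s := by
    intro a b hab
    have h1 := hs a
    rw [hab, hs b] at h1
    exact (Option.some.inj h1).symm
  have := Fintype.card_le_of_injective s hinj
  rwa [Fintype.card_fin] at this

theorem bdd [Fintype V] [Nonempty V] (X : Player) :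
    BddAbove {k | 1 ≤ k ∧ AliceWins G k X (fun _ => none)} :=
  ⟨Fintype.card V, fun _ hk => le_card hk.1 hk.2⟩

/-- Alice wins with one colour. -/
theorem one_win [Fintype V] [Nonempty V] (X : Player) :
    AliceWins G 1 X (fun _ => none) := by
  classical
  have key : ∀ n : ℕ, ∀ (X : Player) (f : V → Option (Fin 1)),
      (Finset.univ.filter (fun v => f v = none)).card = n → AliceWins G 1 X f := by
    intro n
    induction n with
    | zero =>
      intro X f hf
      have hfull : ∀ v, f v ≠ none := by
        intro v hv
        rw [Finset.card_eq_zero] at hf
        have : v ∈ Finset.univ.filter (fun v => f v = none) := by simp [hv]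
        rw [hf] at this
        simp at this
      refine AliceWins.fin X f hfull ?_
      intro c v
      left
      show f v = some c
      obtain ⟨d, hd⟩ := Option.ne_none_iff_exists'.1 (hfull v)
      rw [hd, Subsingleton.elim d c]
    | succ n ih =>
      intro X f hf
      have hcard : ∀ v, f v = none → ∀ c : Fin 1,
          (Finset.univ.filter (fun u => Function.update f v (some c) u = none)).card = n := by
        intro v hv c
        have : Finset.univ.filter (fun u => Function.update f v (some c) u = none) =
            (Finset.univ.filter (fun u => f u = none)).erase v := by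
          ext u
          simp only [Finset.mem_filter, Finset.mem_univ, true_and, Finset.mem_erase]
          by_cases hu : u = v
          · rw [hu, Function.update_self]; simp
          · rw [Function.update_of_ne hu]; simp [hu]
        rw [this, Finset.card_erase_of_mem (by simp [hv]), hf]
        rfl
      have hne : ∃ v, f v = none := by
        have : (Finset.univ.filter (fun v => f v = none)).Nonempty := by
          rw [← Finset.card_pos, hf]; omega
        obtain ⟨v, hv⟩ := this
        exact ⟨v, by simpa using hv⟩
      cases X with
      | alice =>
        obtain ⟨v, hv⟩ := hne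
        refine AliceWins.alice f v hv 0 ?_
        have := ih Player.bob _ (hcard v hv 0)
        convert this
      | bob =>
        refine AliceWins.bob f hne ?_
        intro v hv c
        have := ih Player.alice _ (hcard v hv c)
        convert this
  exact key _ X _ rfl

theorem mem_set [Fintype V] [Nonempty V] (G : SimpleGraph V) (X : Player) :
    1 ≤ gameNumber G X ∧ AliceWins G (gameNumber G X) X (fun _ => none) :=
  Nat.sSup_mem (s := {k | 1 ≤ k ∧ AliceWins G k X (fun _ => none)}) ⟨1, le_refl 1, one_win X⟩
    (bdd X)

open Classical in
theorem alice_first [Nonempty V] {k : ℕ} (hk : 1 ≤ k)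
    (h : AliceWins G (k + 1) Player.bob (fun _ => none)) :
    AliceWins G k Player.alice (fun _ => none) := by
  obtain ⟨x⟩ := ‹Nonempty V›
  cases h with
  | fin _ _ hfull hdom => exact absurd rfl (hfull x)
  | bob _ hne h =>
    refine ghost_win hk (h x rfl (Fin.last k)) _ x ⟨rfl, ?_, ?_, ?_⟩
    · rw [Function.update_self]
    · intro v hv
      rw [Function.update_of_ne hv]
      simp
    · intro v c hv
      by_cases hvx : v = x
      · rw [hvx, Function.update_self] at hv
        exact absurd (Option.some.inj hv) (Fin.castSucc_lt_last c).ne'
      · rw [Function.update_of_ne hvx] at hv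
        exact absurd hv (by simp)

open Classical in
theorem bob_first [Nonempty V] {k : ℕ} (hk : 1 ≤ k)
    (h : AliceWins G (k + 1) Player.alice (fun _ => none)) :
    AliceWins G k Player.bob (fun _ => none) := by
  obtain ⟨x0⟩ := ‹Nonempty V›
  cases h with
  | fin _ _ hfull hdom => exact absurd rfl (hfull x0)
  | alice _ x hx c0 h =>
    have h2 := perm_win (Equiv.swap c0 (Fin.last k)) h
    have h3 : (fun v => (Function.update (fun _ : V => (none : Option (Fin (k + 1)))) x
        (some c0) v).map (Equiv.swap c0 (Fin.last k))) =
        Function.update (fun _ : V => (none : Option (Fin (k + 1)))) x (some (Fin.last k)) := by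
      funext v
      by_cases hv : v = x
      · rw [hv, Function.update_self, Function.update_self]
        simp
      · rw [Function.update_of_ne hv, Function.update_of_ne hv]
        rfl
    rw [h3] at h2
    refine ghost_win hk h2 _ x ⟨rfl, ?_, ?_, ?_⟩
    · rw [Function.update_self]
    · intro v hv
      rw [Function.update_of_ne hv]
      simp
    · intro v c hv
      by_cases hvx : v = x
      · rw [hvx, Function.update_self] at hv
        exact absurd (Option.some.inj hv) (Fin.castSucc_lt_last c).ne'
      · rw [Function.update_of_ne hvx] at hv
        exact absurd hv (by simp)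

end

/-- **Theorem.** For every finite graph `G` with at least one vertex,
`|γ_g(G, A) - γ_g(G, B)| ≤ 1`. -/
theorem result {V : Type*} [Fintype V] [Nonempty V] (G : SimpleGraph V) :
    |(gameNumber G Player.alice : ℤ) - (gameNumber G Player.bob : ℤ)| ≤ 1 := by
  have hA := mem_set G Player.alice
  have hB := mem_set G Player.bob
  have h1 : gameNumber G Player.bob ≤ gameNumber G Player.alice + 1 := by
    by_contra hc
    obtain ⟨k, hk⟩ : ∃ k, gameNumber G Player.bob = k + 1 := ⟨gameNumber G Player.bob - 1, by omega⟩
    have h2 := hB.2
    rw [hk] at h2
    have h3 := alice_first (by omega) h2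
    have h4 : k ≤ gameNumber G Player.alice := le_csSup (bdd Player.alice) ⟨by omega, h3⟩
    omega
  have h2 : gameNumber G Player.alice ≤ gameNumber G Player.bob + 1 := by
    by_contra hc
    obtain ⟨k, hk⟩ : ∃ k, gameNumber G Player.alice = k + 1 :=
      ⟨gameNumber G Player.alice - 1, by omega⟩
    have h2 := hA.2
    rw [hk] at h2
    have h3 := bob_first (by omega) h2
    have h4 : k ≤ gameNumber G Player.bob := le_csSup (bdd Player.bob) ⟨by omega, h3⟩
    omega
  rw [abs_le]
  constructor <;> omega

end Pool.Agent.Results.MP_d2c770_co.FirstPlayerChange
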